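import Pool.Agent.Lib.MP_23b606_ag.T1.Defs

/-! Jac: pluricanonical forms through Jacobian determinants. -/

set_option autoImplicit false

open scoped BigOperators KaehlerDifferential

namespace T1

variable {K : Type} [Field K] [Algebra ℂ K]

/-- The value `det (D_i (a_j))` of the form `d a_1 ∧ ... ∧ d a_n` on the derivations
`D_1, ..., D_n`. -/
noncomputable def jac {n : ℕ} (D : Fin n → Derivation ℂ K K) (a : Fin n → K) : K :=
  Matrix.det (Matrix.of fun i j => D i (a j))

/-- The `m`-canonical form `g (dx_1 ∧ ... ∧ dx_n)^m` is regular at `O`: it is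
`c (da_1 ∧ ... ∧ da_n)^m` for some `a_i, c ∈ O`. -/
def RegularAt {n : ℕ} (O : ValuationSubring K) (x : Fin n → K) (m : ℕ) (g : K) : Prop :=
  ∃ (a : Fin n → K) (c j : K), (∀ i, a i ∈ O) ∧ c ∈ O ∧ (∀ D, jac D a = j * jac D x) ∧
    g = c * j ^ m

/-- Kodaira dimension `-∞`: for `m ≥ 1` every `m`-canonical form `g (dx_1 ∧ ... ∧ dx_n)^m` which is
regular at all divisorial valuation rings is zero. -/
def KodairaNegInf (K : Type) [Field K] [Algebra ℂ K] (n : ℕ) : Prop :=
  ∀ (x : Fin n → K) (m : ℕ) (g : K), (∃ D, jac D x ≠ 0) → 1 ≤ m →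
    (∀ O : ValuationSubring K, IsDiv n O → RegularAt O x m g) → g = 0

theorem jac_eq_of_W {n : ℕ} (a x : Fin n → K) (j : K) (h : W a = j • W x)
    (D : Fin n → Derivation ℂ K K) : jac D a = j * jac D x := by
  let φ : Fin n → Ω[K⁄ℂ] →ₗ[K] K := fun i => (D i).liftKaehlerDifferential
  let A : Ω[K⁄ℂ] [⋀^Fin n]→ₗ[K] K :=
    (Matrix.detRowAlternating (R := K) (n := Fin n)).compLinearMap (LinearMap.pi φ)
  have hA : ∀ y : Fin n → K, exteriorPower.alternatingMapLinearEquiv A (W y) = jac D y := by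
    intro y
    unfold W jac
    rw [exteriorPower.alternatingMapLinearEquiv_apply_ιMulti]
    show Matrix.det (fun i => (LinearMap.pi φ) (KaehlerDifferential.D ℂ K (y i))) = _
    rw [← Matrix.det_transpose]
    congr 1
    ext i j
    simp [Matrix.transpose, φ, Derivation.liftKaehlerDifferential_comp_D]
  rw [← hA a, ← hA x, h, map_smul, smul_eq_mul]

theorem exists_jac_ne_zero {n : ℕ} (x : Fin n → K) (h : W x ≠ 0) : ∃ D, jac D x ≠ 0 := by
  classical
  have hli : LinearIndependent K fun i => KaehlerDifferential.D ℂ K (x i) := by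
    by_contra hcon
    exact h (AlternatingMap.map_linearDependent _ _ hcon)
  set v := fun i => KaehlerDifferential.D ℂ K (x i) with hv
  let b := Module.Basis.span hli
  have hφ : ∀ i, ∃ φ : Ω[K⁄ℂ] →ₗ[K] K, ∀ j, φ (v j) = if j = i then 1 else 0 := by
    intro i
    obtain ⟨φ, hφ⟩ := LinearMap.exists_extend (b.coord i)
    refine ⟨φ, fun j => ?_⟩
    have h1 : (b j : Ω[K⁄ℂ]) = v j := congrArg Subtype.val (Module.Basis.span_apply hli j)
    rw [← h1]
    have h2 : φ (b j : Ω[K⁄ℂ]) = (b.coord i) (b j) := by rw [← hφ]; rfl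
    rw [h2, Module.Basis.coord_apply, Module.Basis.repr_self, Finsupp.single_apply]
  choose φ hφ using hφ
  refine ⟨fun i => (φ i).compDer (KaehlerDifferential.D ℂ K), ?_⟩
  have h1 : (Matrix.of fun i j => ((φ i).compDer (KaehlerDifferential.D ℂ K)) (x j))
      = (1 : Matrix (Fin n) (Fin n) K) := by
    ext i j
    rw [Matrix.of_apply, Matrix.one_apply]
    show φ i (v j) = _
    rw [hφ i j]
    simp [eq_comm]
  unfold jac
  rw [h1, Matrix.det_one]
  exact one_ne_zero

theorem KodairaNegInf.kodairaNeg {n : ℕ} (h : KodairaNegInf K n) : KodairaNeg K n := by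
  intro x m g hx hm hO
  refine h x m g (exists_jac_ne_zero x hx) hm fun O hdiv => ?_
  obtain ⟨a, c, j, ha, hc, hW, hg⟩ := hO O hdiv
  exact ⟨a, c, j, ha, hc, jac_eq_of_W a x j hW, hg⟩

end T1
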