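import Pool.Agent.Lib.MP_23b606_ag.T1.Defs

/-! Cor: systems of linear equations in general position (abelian covers of projective space
branched along hyperplanes in general position) are nondegenerate. -/

set_option autoImplicit false

open scoped BigOperators

namespace T1

/-- The linear forms `∑_j a_ij x^(w_j)`. -/
noncomputable def hyp {M : Type} [AddCommGroup M] {N r : ℕ} (w : Fin (N + 1) → M)
    (a : Fin r → Fin (N + 1) → ℂ) (i : Fin r) : M →₀ ℂ :=
  ∑ j, Finsupp.single (w j) (a i j)

section aux

variable {M : Type} [AddCommGroup M] {N r : ℕ} {w : Fin (N + 1) → M}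

theorem hyp_apply (hw : Function.Injective w) (a : Fin r → Fin (N + 1) → ℂ) (i : Fin r)
    (j : Fin (N + 1)) : hyp w a i (w j) = a i j := by
  classical
  unfold hyp
  rw [Finsupp.finsetSum_apply, Finset.sum_eq_single j]
  · simp
  · intro b _ hb
    rw [Finsupp.single_apply, if_neg fun h => hb (hw h)]
  · intro h; exact absurd (Finset.mem_univ j) h

theorem hyp_support (hw : Function.Injective w) (a : Fin r → Fin (N + 1) → ℂ)
    (ha : ∀ i j, a i j ≠ 0) (i : Fin r) : (hyp w a i).support = Finset.univ.map ⟨w, hw⟩ := by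
  classical
  ext m
  constructor
  · intro hm
    have h1 := Finsupp.support_finsetSum hm
    rw [Finset.mem_biUnion] at h1
    obtain ⟨j, _, hj⟩ := h1
    have h2 := Finsupp.support_single_subset hj
    rw [Finset.mem_singleton] at h2
    rw [Finset.mem_map]
    exact ⟨j, Finset.mem_univ _, h2.symm⟩
  · intro hm
    rw [Finset.mem_map] at hm
    obtain ⟨j, _, rfl⟩ := hm
    rw [Finsupp.mem_support_iff]
    show hyp w a i (w j) ≠ 0
    rw [hyp_apply hw]
    exact ha i j

theorem hyp_hm (hw : Function.Injective w) (a : Fin r → Fin (N + 1) → ℂ)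
    (ha : ∀ i j, a i j ≠ 0) (i i' : Fin r) (n : M →+ ℤ) :
    hm (hyp w a i) n = hm (hyp w a i') n := by
  unfold hm
  simp only [hyp_support hw a ha]

theorem hyp_min (hw : Function.Injective w) (a : Fin r → Fin (N + 1) → ℂ)
    (ha : ∀ i j, a i j ≠ 0) (i : Fin r) (n : M →+ ℤ) :
    ∃ j, n (w j) = hm (hyp w a i) n := by
  classical
  have hne : (hyp w a i).support.Nonempty := by
    rw [hyp_support hw a ha]
    exact ⟨w 0, by simp⟩
  obtain ⟨m, hm', h2⟩ := Finset.exists_mem_eq_inf' hne n
  rw [hyp_support hw a ha, Finset.mem_map] at hm'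
  obtain ⟨j, _, rfl⟩ := hm'
  refine ⟨j, ?_⟩
  unfold hm
  rw [dif_pos hne, h2]
  rfl

theorem hyp_sum (hw : Function.Injective w) (a : Fin r → Fin (N + 1) → ℂ)
    (ha : ∀ i j, a i j ≠ 0) (i : Fin r) (n : M →+ ℤ) {R : Type} [AddCommMonoid R]
    (Φ : M → ℂ → R) :
    (ini (hyp w a i) n).sum Φ
      = ∑ j ∈ Finset.univ.filter (fun j => n (w j) = hm (hyp w a i) n), Φ (w j) (a i j) := by
  classical
  have hs : (ini (hyp w a i) n).support
      = (Finset.univ.filter (fun j => n (w j) = hm (hyp w a i) n)).map ⟨w, hw⟩ := by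
    ext m
    unfold ini
    rw [Finsupp.support_filter, hyp_support hw a ha]
    constructor
    · intro h
      obtain ⟨h1, h2⟩ := Finset.mem_filter.1 h
      obtain ⟨j, _, rfl⟩ := Finset.mem_map.1 h1
      exact Finset.mem_map.2 ⟨j, Finset.mem_filter.2 ⟨Finset.mem_univ _, h2⟩, rfl⟩
    · intro h
      obtain ⟨j, hj, rfl⟩ := Finset.mem_map.1 h
      exact Finset.mem_filter.2 ⟨Finset.mem_map.2 ⟨j, Finset.mem_univ _, rfl⟩,
        (Finset.mem_filter.1 hj).2⟩
  rw [Finsupp.sum, hs, Finset.sum_map]
  refine Finset.sum_congr rfl fun j hj => ?_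
  have h1 : (ini (hyp w a i) n) (w j) = a i j := by
    unfold ini
    rw [Finsupp.filter_apply, if_pos (Finset.mem_filter.1 hj).2, hyp_apply hw]
  show Φ (w j) ((ini (hyp w a i) n) (w j)) = _
  rw [h1]

end aux

/-- Complex affine relations of affinely independent lattice points are trivial. -/
theorem affine_rel {M : Type} [AddCommGroup M] [Module.Free ℤ M] [Module.Finite ℤ M] {N : ℕ}
    (w : Fin (N + 1) → M)
    (hw : ∀ c : Fin (N + 1) → ℤ, ∑ j, c j = 0 → ∑ j, c j • w j = 0 → c = 0)
    (β : Fin (N + 1) → ℂ) (h0 : ∑ j, β j = 0)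
    (h1 : ∀ n' : M →+ ℤ, ∑ j, β j * ((n' (w j) : ℤ) : ℂ) = 0) : β = 0 := by
  classical
  set b := Module.finBasis ℤ M with hb
  let v : Fin (N + 1) → Option (Fin (Module.finrank ℤ M)) → ℤ := fun j x =>
    match x with
    | none => 1
    | some k => b.repr (w j) k
  have hli : LinearIndependent ℤ v := by
    rw [Fintype.linearIndependent_iff]
    intro c hc
    have h2 : c = 0 := by
      apply hw
      · have h := congrFun hc none
        simpa [v] using h
      · apply b.repr.injective
        ext k
        have h := congrFun hc (some k)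
        simp only [Finset.sum_apply, Pi.smul_apply, Pi.zero_apply, v] at h
        rw [map_sum, Finsupp.finsetSum_apply, map_zero, Finsupp.zero_apply, ← h]
        refine Finset.sum_congr rfl fun j _ => ?_
        rw [map_smul, Finsupp.smul_apply]
    intro j
    rw [h2]; rfl
  have hli' : LinearIndependent ℂ (fun j => algebraMap ℤ ℂ ∘ v j) :=
    linearIndependent_algebraMap_comp_iff.2 hli
  rw [Fintype.linearIndependent_iff] at hli'
  have h3 := hli' β (by
    ext x
    cases x with
    | none => simpa [v] using h0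
    | some k =>
      have h := h1 (b.coord k).toAddMonoidHom
      simp only [Finset.sum_apply, Pi.smul_apply, Function.comp_apply, Pi.zero_apply, smul_eq_mul,
        v]
      exact h)
  ext j
  exact h3 j

/-- Linear systems in general position are nondegenerate: `a` has nonzero entries and all its
maximal minors are nonzero, the lattice points `w_0, .., w_N` are affinely independent. -/
theorem nondeg_hyp {M : Type} [AddCommGroup M] [Module.Free ℤ M] [Module.Finite ℤ M] {N r : ℕ}
    (hr : r ≤ N + 1) (w : Fin (N + 1) → M)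
    (hw : ∀ c : Fin (N + 1) → ℤ, ∑ j, c j = 0 → ∑ j, c j • w j = 0 → c = 0)
    (a : Fin r → Fin (N + 1) → ℂ) (ha : ∀ i j, a i j ≠ 0)
    (hgen : ∀ s : Fin r ↪ Fin (N + 1), (Matrix.of fun i k => a i (s k)).det ≠ 0) :
    Nondeg (hyp w a) := by
  classical
  have hinj : Function.Injective w := by
    intro j j' hjj
    by_contra hne
    have h := hw (Pi.single j 1 - Pi.single j' 1) (by simp) (by
      simp only [Pi.sub_apply, sub_smul, Finset.sum_sub_distrib]
      rw [Finset.sum_eq_single j, Finset.sum_eq_single j']
      · simp [hjj]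
      · intro b _ hb; simp [hb]
      · simp
      · intro b _ hb; simp [hb]
      · simp)
    have h2 := congrFun h j
    simp [hne] at h2
  intro n ξ hz
  rw [Fintype.linearIndependent_iff]
  intro c hc
  rcases Nat.eq_zero_or_pos r with hr0 | hr0
  · intro i
    exact absurd i.2 (by omega)
  set i0 : Fin r := ⟨0, hr0⟩
  set T : Finset (Fin (N + 1)) :=
    Finset.univ.filter (fun j => n (w j) = hm (hyp w a i0) n) with hT
  have hTi : ∀ i, Finset.univ.filter (fun j => n (w j) = hm (hyp w a i) n) = T := by
    intro i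
    rw [hT, hyp_hm hinj a ha i i0]
  have hTne : T.Nonempty := by
    obtain ⟨j, hj⟩ := hyp_min hinj a ha i0 n
    exact ⟨j, by rw [hT]; exact Finset.mem_filter.2 ⟨Finset.mem_univ _, hj⟩⟩
  let z : Fin (N + 1) → ℂ := fun j => ξ (Multiplicative.ofAdd (w j))
  have hzne : ∀ j, z j ≠ 0 := by
    intro j hj
    have h : ξ (Multiplicative.ofAdd (w j) * (Multiplicative.ofAdd (w j))⁻¹) = 0 := by
      rw [map_mul]
      show z j * _ = 0
      rw [hj, zero_mul]
    rw [mul_inv_cancel, map_one] at h
    exact one_ne_zero h
  have hev : ∀ i, ∑ j ∈ T, a i j * z j = 0 := by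
    intro i
    have h := hz i
    unfold ev at h
    rw [hyp_sum hinj a ha, hTi] at h
    exact h
  have hdl : ∀ i n', dl ξ (ini (hyp w a i) n) n'
      = ∑ j ∈ T, a i j * z j * ((n' (w j) : ℤ) : ℂ) := by
    intro i n'
    unfold dl
    rw [hyp_sum hinj a ha, hTi]
    rfl
  -- a subset of the columns of size `r`, related to `T`
  let β : Fin (N + 1) → ℂ := fun j => if j ∈ T then (∑ i, c i * a i j) * z j else 0
  have hβ : β = 0 := by
    apply affine_rel w hw
    · calc ∑ j, β j = ∑ j ∈ T, (∑ i, c i * a i j) * z j := by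
            simp only [β]
            rw [Finset.sum_ite_mem, Finset.univ_inter]
        _ = ∑ i, c i * ∑ j ∈ T, a i j * z j := by
            simp only [Finset.sum_mul, Finset.mul_sum]
            rw [Finset.sum_comm]
            refine Finset.sum_congr rfl fun i _ => Finset.sum_congr rfl fun j _ => by ring
        _ = 0 := by simp [hev]
    · intro n'
      have h := congrFun hc n'
      simp only [Finset.sum_apply, Pi.smul_apply, Pi.zero_apply, smul_eq_mul] at h
      calc ∑ j, β j * ((n' (w j) : ℤ) : ℂ)
          = ∑ j ∈ T, (∑ i, c i * a i j) * z j * ((n' (w j) : ℤ) : ℂ) := by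
            simp only [β, ite_mul, zero_mul]
            rw [Finset.sum_ite_mem, Finset.univ_inter]
        _ = ∑ i, c i * ∑ j ∈ T, a i j * z j * ((n' (w j) : ℤ) : ℂ) := by
            simp only [Finset.sum_mul, Finset.mul_sum]
            rw [Finset.sum_comm]
            refine Finset.sum_congr rfl fun i _ => Finset.sum_congr rfl fun j _ => by ring
        _ = 0 := by
            rw [← h]
            exact Finset.sum_congr rfl fun i _ => by rw [hdl]
  have hcT : ∀ j ∈ T, ∑ i, c i * a i j = 0 := by
    intro j hj
    have h := congrFun hβ j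
    simp only [β, hj, if_true, Pi.zero_apply] at h
    rcases mul_eq_zero.1 h with h | h
    · exact h
    · exact absurd h (hzne j)
  rcases le_or_gt r T.card with hle | hlt
  · -- `r` columns inside `T`
    obtain ⟨U, hUT, hUc⟩ := Finset.exists_subset_card_eq hle
    let s : Fin r ↪ Fin (N + 1) :=
      (U.orderEmbOfFin hUc).toEmbedding
    have hdet := hgen s
    have h0 : Matrix.vecMul c (Matrix.of fun i k => a i (s k)) = 0 := by
      ext k
      simp only [Matrix.vecMul, dotProduct, Matrix.of_apply, Pi.zero_apply]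
      exact hcT _ (hUT (Finset.orderEmbOfFin_mem U hUc k))
    have h1 := Matrix.eq_zero_of_vecMul_eq_zero hdet h0
    intro i
    exact congrFun h1 i
  · -- `T` inside a set of `r` columns: contradiction
    exfalso
    obtain ⟨U, hTU, _, hUc⟩ := Finset.exists_subsuperset_card_eq (Finset.subset_univ T) hlt.le
      (by simpa using hr)
    let s : Fin r ↪ Fin (N + 1) :=
      (U.orderEmbOfFin hUc).toEmbedding
    have hdet := hgen s
    have hrange : ∀ j ∈ U, ∃ k, s k = j := by
      intro j hj
      have h := Finset.range_orderEmbOfFin U hUc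
      have h2 : j ∈ Set.range (U.orderEmbOfFin hUc) := by rw [h]; exact hj
      exact h2
    have h0 : Matrix.mulVec (Matrix.of fun i k => a i (s k))
        (fun k => if s k ∈ T then z (s k) else 0) = 0 := by
      ext i
      simp only [Matrix.mulVec, dotProduct, Matrix.of_apply, Pi.zero_apply]
      refine Eq.trans ?_ (hev i)
      have h2 : ∑ j ∈ T, a i j * z j = ∑ j ∈ U, a i j * (if j ∈ T then z j else 0) := by
        simp only [mul_ite, mul_zero]
        rw [Finset.sum_ite_mem, Finset.inter_eq_right.2 hTU]
      rw [h2]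
      symm
      have h3 : U = Finset.univ.map s := by
        ext j
        constructor
        · intro hj
          obtain ⟨k, hk⟩ := hrange j hj
          exact Finset.mem_map.2 ⟨k, Finset.mem_univ _, hk⟩
        · intro hj
          obtain ⟨k, _, rfl⟩ := Finset.mem_map.1 hj
          exact Finset.orderEmbOfFin_mem U hUc k
      rw [h3, Finset.sum_map]
    have h1 := Matrix.eq_zero_of_mulVec_eq_zero hdet h0
    obtain ⟨j, hj⟩ := hTne
    obtain ⟨k, rfl⟩ := hrange j (hTU hj)
    have h2 := congrFun h1 k
    simp only [hj, if_true, Pi.zero_apply] at h2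
    exact hzne _ h2

end T1
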