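import Mathlib

/-!
# T1: definitions

Laurent polynomials are finitely supported functions `f : M →₀ ℂ` on a free abelian group `M` of
finite rank, `N = M →+ ℤ`, characters are homomorphisms `ξ : Multiplicative M →* R`.
-/

set_option autoImplicit false

open scoped BigOperators KaehlerDifferential

namespace T1

section Laurent

variable {M : Type} [AddCommGroup M]

/-- The value of the Laurent polynomial `f` at the character `ξ`. -/
noncomputable def ev {R : Type} [CommRing R] [Algebra ℂ R] (ξ : Multiplicative M →* R)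
    (f : M →₀ ℂ) : R :=
  f.sum fun m c => algebraMap ℂ R c * ξ (Multiplicative.ofAdd m)

/-- The minimum of `n` on the support of `f` (`0` for `f = 0`). -/
noncomputable def hm (f : M →₀ ℂ) (n : M →+ ℤ) : ℤ :=
  if h : f.support.Nonempty then f.support.inf' h n else 0

/-- The initial form of `f` in direction `n`: the part of `f` on which `n` is minimal. -/
noncomputable def ini (f : M →₀ ℂ) (n : M →+ ℤ) : M →₀ ℂ := f.filter fun m => n m = hm f n

/-- The logarithmic differential of `f` at the character `ξ`: its derivative in the direction of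
`n'` is `∑ c_m n'(m) ξ(m)`. -/
noncomputable def dl {R : Type} [CommRing R] [Algebra ℂ R] (ξ : Multiplicative M →* R)
    (f : M →₀ ℂ) : (M →+ ℤ) → R :=
  fun n' => f.sum fun m c => algebraMap ℂ R c * ξ (Multiplicative.ofAdd m) * ((n' m : ℤ) : R)

/-- Nondegeneracy (Khovanskii): for every direction `n`, at every point of the torus where all
the initial forms of the `f i` vanish, their logarithmic differentials are linearly independent. -/
def Nondeg {ι : Type} (f : ι → M →₀ ℂ) : Prop :=
  ∀ (n : M →+ ℤ) (ξ : Multiplicative M →* ℂ),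
    (∀ i, ev ξ (ini (f i) n) = 0) → LinearIndependent ℂ fun i => dl ξ (ini (f i) n)

/-- The field `K` is the function field of a component of `{f = 0}` with generic point `χ`:
it is generated by the values of `χ`, all `f i` vanish at `χ`, and its transcendence degree is
`n = rank M - number of equations`. -/
structure Pt {K : Type} [Field K] [Algebra ℂ K] {ι : Type} [Fintype ι] (f : ι → M →₀ ℂ)
    (χ : Multiplicative M →* K) (n : ℕ) : Prop where
  gen : IntermediateField.adjoin ℂ (Set.range χ) = ⊤
  zero : ∀ i, ev χ (f i) = 0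
  trd : Algebra.trdeg ℂ K = n
  dim : n + Fintype.card ι = Module.finrank ℤ M

/-- A circuit certificate: `∑ λ_j n_j = 0` is the only relation of the `n_j`, up to integer
multiples, and `∑ λ_j (1 + h(n_j)) ≥ 1`. -/
structure Circ {ι : Type} [Fintype ι] (f : ι → M →₀ ℂ) {J : Type} [Fintype J]
    (nn : J → M →+ ℤ) (lam : J → ℕ) : Prop where
  ne : ∀ j, nn j ≠ 0
  pos : ∀ j, 1 ≤ lam j
  rel : ∑ j, lam j • nn j = 0
  prim : ∀ μ : J → ℤ, ∑ j, μ j • nn j = 0 → ∃ c : ℤ, ∀ j, μ j = c * lam j
  idx : 1 ≤ ∑ j, (lam j : ℤ) * (1 + ∑ i, hm (f i) (nn j))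

/-- The number `d_i = - ∑ λ_j h_i(n_j)`. -/
noncomputable def dd (f : M →₀ ℂ) {J : Type} [Fintype J] (nn : J → M →+ ℤ) (lam : J → ℕ) : ℕ :=
  (-∑ j, (lam j : ℤ) * hm f (nn j)).toNat

/-- The polynomial `F_i(y) = ∑ c_m χ(m) ∏ y_j ^ (n_j(m) - h_i(n_j))`. -/
noncomputable def Fp {L : Type} [Field L] [Algebra ℂ L] (χ : Multiplicative M →* L)
    {J : Type} [Fintype J] (nn : J → M →+ ℤ) (f : M →₀ ℂ) : MvPolynomial J L :=
  f.sum fun m c => MvPolynomial.monomial
    (Finsupp.equivFunOnFinite.symm fun j => (nn j m - hm f (nn j)).toNat)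
    (algebraMap ℂ L c * χ (Multiplicative.ofAdd m))

end Laurent

section Forms

variable {K : Type} [Field K] [Algebra ℂ K]

/-- The form `d a_1 ∧ ... ∧ d a_n` in the top exterior power of the Kähler differentials. -/
noncomputable def W {n : ℕ} (a : Fin n → K) : ⋀[K]^n Ω[K⁄ℂ] :=
  exteriorPower.ιMulti K n fun i => KaehlerDifferential.D ℂ K (a i)

/-- `O` is a divisorial valuation ring of the function field `K` of transcendence degree `n`:
a discrete valuation ring whose residue field contains `n - 1` elements which are algebraically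
independent over `ℂ`. -/
def IsDiv (n : ℕ) (O : ValuationSubring K) : Prop :=
  IsDiscreteValuationRing O ∧ ∃ u : Fin (n - 1) → K,
    ∀ p : MvPolynomial (Fin (n - 1)) ℂ, p ≠ 0 → O.valuation (MvPolynomial.aeval u p) = 1

/-- The `m`-canonical form `g (dx_1 ∧ ... ∧ dx_n)^m` is regular at `O`: it is
`c (da_1 ∧ ... ∧ da_n)^m` for some `a_i, c ∈ O`. -/
def RegAt {n : ℕ} (O : ValuationSubring K) (x : Fin n → K) (m : ℕ) (g : K) : Prop :=
  ∃ (a : Fin n → K) (c j : K), (∀ i, a i ∈ O) ∧ c ∈ O ∧ W a = j • W x ∧ g = c * j ^ m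

/-- Kodaira dimension `-∞`: for `m ≥ 1` every `m`-canonical form which is regular at all
divisorial valuation rings is zero. -/
def KodairaNeg (K : Type) [Field K] [Algebra ℂ K] (n : ℕ) : Prop :=
  ∀ (x : Fin n → K) (m : ℕ) (g : K), W x ≠ 0 → 1 ≤ m →
    (∀ O : ValuationSubring K, IsDiv n O → RegAt O x m g) → g = 0

/-- `K` is uniruled: it embeds over `ℂ` into a field `L(v)` of rational functions in one variable
over some field `L ⊇ ℂ`, with image not contained in `L`. -/
def Uniruled (K : Type) [Field K] [Algebra ℂ K] : Prop :=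
  ∃ (L : Type) (_ : Field L) (_ : Algebra ℂ L) (φ : K →ₐ[ℂ] RatFunc L),
    ∃ x, φ x ∉ Set.range (algebraMap L (RatFunc L))

end Forms

/-- A weighted homogeneous system: `F i` has weight `d i` for the weights `lam j ≥ 1`, and
vanishes at `(1,..,1)`. -/
structure WSys (k : Type) [Field k] (J ι : Type) where
  lam : J → ℕ
  d : ι → ℕ
  F : ι → MvPolynomial J k
  lam_pos : ∀ j, 1 ≤ lam j
  hom : ∀ i, (F i).IsWeightedHomogeneous lam (d i)
  one : ∀ i, MvPolynomial.eval (fun _ => 1) (F i) = 0

namespace WSys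

variable {k : Type} [Field k] {J ι : Type} (S : WSys k J ι)

/-- Solutions of degree `e`: monic polynomials `P j` of degree `e λ_j` with `F_i(P) = 0`. -/
def Sol (e : ℕ) (P : J → Polynomial k) : Prop :=
  (∀ j, (P j).Monic) ∧ (∀ j, (P j).natDegree = e * S.lam j) ∧
    ∀ i, MvPolynomial.aeval P (S.F i) = 0

/-- Trivial solutions: `P j = q ^ λ_j`. -/
def Triv (P : J → Polynomial k) : Prop :=
  ∃ q : Polynomial k, q.Monic ∧ ∀ j, P j = q ^ S.lam j

/-- All solutions of degree `e` are trivial. -/
def OnlyTriv (e : ℕ) : Prop := ∀ P, S.Sol e P → S.Triv P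

end WSys

/-- The Koszul property: all relations of the `H i` come from alternating matrices. -/
def Kos {R : Type} [CommRing R] {r : ℕ} (H : Fin r → R) : Prop :=
  ∀ g : Fin r → R, ∑ i, g i * H i = 0 → ∃ s : Fin r → Fin r → R,
    (∀ i, s i i = 0) ∧ (∀ i j, s i j = -s j i) ∧ ∀ i, g i = ∑ j, s i j * H j

end T1
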