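import Pool.Agent.Lib.MP_23b606_ag.T1.A.Fi
import Pool.Agent.Lib.MP_23b606_ag.T1.P.Dich
import Pool.Agent.Lib.MP_23b606_ag.T1.C.ThmC
import Pool.Agent.Lib.MP_23b606_ag.T1.U.Uni
import Pool.Agent.Lib.MP_23b606_ag.T1.E.Elim

/-! Main: Theorem T1. -/

set_option autoImplicit false

open Polynomial

namespace T1

theorem main_aux (N : ℕ) : ∀ (M : Type) [AddCommGroup M] [Module.Free ℤ M] [Module.Finite ℤ M]
    (K : Type) [Field K] [Algebra ℂ K] (ι : Type) [Fintype ι] (f : ι → M →₀ ℂ),
    Module.finrank ℤ M ≤ N →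
    ∀ (χ : Multiplicative M →* K), Good f χ → ∀ (n : ℕ), Pt f χ n → KodairaNeg K n →
      Uniruled K := by
  induction N with
  | zero =>
    intro M _ _ _ K _ _ ι _ f hN χ hG n hχ hκ
    classical
    rcases dichotomy f (ne_zero_of_ind χ hG.ind) with ⟨m, m0, hm1, hFI⟩ | ⟨J, _, nn, lam, _, hC⟩
    · exact absurd hκ (not_kodairaNeg χ hG hχ m hm1 m0 hFI)
    · have h := (finrank_M0 hC).1
      have h' := (finrank_M0 hC).2
      omega
  | succ N ih =>
    intro M _ _ _ K _ _ ι _ f hN χ hG n hχ hκ
    classical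
    rcases dichotomy f (ne_zero_of_ind χ hG.ind) with ⟨m, m0, hm1, hFI⟩ | ⟨J, _, nn, lam, _, hC⟩
    · exact absurd hκ (not_kodairaNeg χ hG hχ m hm1 m0 hFI)
    · let χ' : Multiplicative M →* AlgebraicClosure K :=
        ((algebraMap K (AlgebraicClosure K)) : K →* AlgebraicClosure K).comp χ
      have hχ' : ∀ m, χ' m = algebraMap K (AlgebraicClosure K) (χ m) := fun m => rfl
      have hz : ∀ i, ev χ' (f i) = 0 := by
        intro i
        have h := hχ.zero i
        have h2 : ev χ' (f i) = algebraMap K (AlgebraicClosure K) (ev χ (f i)) := by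
          simp only [ev, Finsupp.sum, map_sum, map_mul, hχ']
          refine Finset.sum_congr rfl fun m _ => ?_
          rw [← IsScalarTower.algebraMap_apply]
        rw [h2, h, map_zero]
      have : CharZero (AlgebraicClosure K) := by
        have h : Function.Injective (algebraMap ℂ (AlgebraicClosure K)) :=
          (algebraMap ℂ (AlgebraicClosure K)).injective
        exact (RingHom.charZero_iff h).1 inferInstance
      by_cases h12 : (sysOf χ' hC hz).OnlyTriv 1 ∧ (sysOf χ' hC hz).OnlyTriv 2
      · obtain ⟨hcount, huniq⟩ := (sysOf χ' hC hz).thmC h12.1 h12.2 (idx_le hC)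
        have hgen := adjoin_eq_top χ hχ.gen hχ.zero hC χ' hχ' huniq
        obtain ⟨M0, _, _, _, ι0, _, f0, χ0, hG0, hχ0, hlt⟩ := elim χ hG hχ hC hcount hgen
        exact ih M0 K ι0 f0 (by omega) χ0 hG0 n hχ0 hκ
      · rw [not_and_or] at h12
        rcases h12 with h12 | h12
        · unfold WSys.OnlyTriv at h12
          push Not at h12
          obtain ⟨P, hP, hnt⟩ := h12
          exact uniruled_of_sol χ hG.ind hχ hC χ' hχ' hz 1 P hP hnt
        · unfold WSys.OnlyTriv at h12
          push Not at h12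
          obtain ⟨P, hP, hnt⟩ := h12
          exact uniruled_of_sol χ hG.ind hχ hC χ' hχ' hz 2 P hP hnt

/-- **Theorem T1.** -/
theorem main {M : Type} [AddCommGroup M] [Module.Free ℤ M] [Module.Finite ℤ M]
    {K : Type} [Field K] [Algebra ℂ K] {ι : Type} [Fintype ι] {f : ι → M →₀ ℂ} (hf : Nondeg f)
    (χ : Multiplicative M →* K) {n : ℕ} (hχ : Pt f χ n) (hκ : KodairaNeg K n) : Uniruled K :=
  main_aux (Module.finrank ℤ M) M K ι f le_rfl χ (hf.good χ hχ.zero) n hχ hκ

/-- Nondegeneracy along the variety `X` with generic point `χ` (`X` is schön): for every direction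
`n` and every complex point `ξ` of the initial degeneration of `X` in direction `n` (all initial
forms of Laurent polynomials vanishing on `X` vanish at `ξ`), the logarithmic differentials of the
initial forms of the `f i` are linearly independent at `ξ`. -/
def NondegAt {M : Type} [AddCommGroup M] {K : Type} [Field K] [Algebra ℂ K] {ι : Type}
    (f : ι → M →₀ ℂ) (χ : Multiplicative M →* K) : Prop :=
  ∀ (n : M →+ ℤ) (ξ : Multiplicative M →* ℂ),
    (∀ g : M →₀ ℂ, ev χ g = 0 → ev ξ (ini g n) = 0) →
      LinearIndependent ℂ fun i => dl ξ (ini (f i) n)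

/-- Nondegenerate systems are nondegenerate along every component. -/
theorem Nondeg.nondegAt {M : Type} [AddCommGroup M] {K : Type} [Field K] [Algebra ℂ K] {ι : Type}
    {f : ι → M →₀ ℂ} (hf : Nondeg f) (χ : Multiplicative M →* K) (hz : ∀ i, ev χ (f i) = 0) :
    NondegAt f χ :=
  fun n ξ h => hf n ξ fun i => h _ (hz i)

/-- **Theorem T1**, with nondegeneracy only along the component. -/
theorem main_at {M : Type} [AddCommGroup M] [Module.Free ℤ M] [Module.Finite ℤ M]
    {K : Type} [Field K] [Algebra ℂ K] {ι : Type} [Fintype ι] {f : ι → M →₀ ℂ}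
    (χ : Multiplicative M →* K) (hf : NondegAt f χ) {n : ℕ} (hχ : Pt f χ n)
    (hκ : KodairaNeg K n) : Uniruled K := by
  have h1 : NondegOn {g : M →₀ ℂ | ev χ g = 0} f := hf
  exact main_aux (Module.finrank ℤ M) M K ι f le_rfl χ (h1.good χ fun g hg => hg) n hχ hκ

end T1
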